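import Mathlib

/-!
Inertia argument for families of vectors whose differences kill a signed sum of characters, and
counting of subsets by size modulo `M`.
-/

open Finset

namespace Pool.Agent.V8H97.Inertia

/-- inertia argument: if the difference of two Gram matrices is a positive multiple of the
identity, then the number of vectors is at most the number of characters of the first one -/
lemma inertia {ι κ : Type*} [Fintype ι] [DecidableEq ι] [DecidableEq κ]
    (χ : κ → ι → ℂ) (P Q : Finset κ) (d : ℝ) (hd : 0 < d)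
    (h : ∀ u v, (∑ S ∈ P, χ S u * (starRingEnd ℂ) (χ S v)) -
      (∑ S ∈ Q, χ S u * (starRingEnd ℂ) (χ S v)) = if u = v then (d : ℂ) else 0) :
    Fintype.card ι ≤ P.card := by
  by_contra hlt
  push Not at hlt
  let L : (ι → ℂ) →ₗ[ℂ] (P → ℂ) :=
    LinearMap.pi fun S => ∑ u, χ S.1 u • LinearMap.proj u
  have hL : ∀ c S, L c S = ∑ u, χ S.1 u * c u := by
    intro c S
    simp [L, LinearMap.sum_apply]
  have hker : LinearMap.ker L ≠ ⊥ := by
    apply LinearMap.ker_ne_bot_of_finrank_lt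
    simpa using hlt
  obtain ⟨c, hc, hc0⟩ := (Submodule.ne_bot_iff _).1 hker
  have hc1 : ∀ S ∈ P, ∑ u, χ S u * c u = 0 := by
    intro S hS
    have := congrFun (LinearMap.mem_ker.1 hc) ⟨S, hS⟩
    rw [hL] at this
    simpa using this
  have key : ∀ R : Finset κ, ∑ S ∈ R, (∑ u, χ S u * c u) * (starRingEnd ℂ) (∑ u, χ S u * c u)
      = ∑ u, ∑ v, c u * (starRingEnd ℂ) (c v) * ∑ S ∈ R, χ S u * (starRingEnd ℂ) (χ S v) := by
    intro R
    have h1 : ∀ S, (∑ u, χ S u * c u) * (starRingEnd ℂ) (∑ u, χ S u * c u)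
        = ∑ u, ∑ v, c u * (starRingEnd ℂ) (c v) * (χ S u * (starRingEnd ℂ) (χ S v)) := by
      intro S
      rw [map_sum, Finset.sum_mul_sum]
      refine Finset.sum_congr rfl fun u _ => Finset.sum_congr rfl fun v _ => ?_
      rw [map_mul]
      ring
    simp_rw [h1]
    rw [Finset.sum_comm]
    refine Finset.sum_congr rfl fun u _ => ?_
    rw [Finset.sum_comm]
    refine Finset.sum_congr rfl fun v _ => ?_
    rw [Finset.mul_sum]
  have hP : ∑ S ∈ P, (∑ u, χ S u * c u) * (starRingEnd ℂ) (∑ u, χ S u * c u) = 0 :=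
    Finset.sum_eq_zero fun S hS => by rw [hc1 S hS, zero_mul]
  have hdiff : (∑ S ∈ P, (∑ u, χ S u * c u) * (starRingEnd ℂ) (∑ u, χ S u * c u))
      - (∑ S ∈ Q, (∑ u, χ S u * c u) * (starRingEnd ℂ) (∑ u, χ S u * c u))
      = (d : ℂ) * ∑ u, c u * (starRingEnd ℂ) (c u) := by
    rw [key P, key Q, ← Finset.sum_sub_distrib, Finset.mul_sum]
    refine Finset.sum_congr rfl fun u _ => ?_
    rw [← Finset.sum_sub_distrib]
    rw [Finset.sum_eq_single u]
    · rw [← mul_sub, h u u, if_pos rfl]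
      ring
    · intro v _ hv
      rw [← mul_sub, h u v, if_neg (fun e => hv e.symm), mul_zero]
    · intro hu
      exact absurd (Finset.mem_univ u) hu
  rw [hP] at hdiff
  simp only [Complex.mul_conj] at hdiff
  have hre : -(∑ S ∈ Q, Complex.normSq (∑ u, χ S u * c u)) = d * ∑ u, Complex.normSq (c u) := by
    have : (((-(∑ S ∈ Q, Complex.normSq (∑ u, χ S u * c u)) : ℝ)) : ℂ)
        = ((d * ∑ u, Complex.normSq (c u) : ℝ) : ℂ) := by
      push_cast
      rw [← hdiff]
      ring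
    exact_mod_cast this
  have hQ : 0 ≤ ∑ S ∈ Q, Complex.normSq (∑ u, χ S u * c u) :=
    Finset.sum_nonneg fun _ _ => Complex.normSq_nonneg _
  have hpos : 0 < ∑ u, Complex.normSq (c u) := by
    obtain ⟨u, hu⟩ := Function.ne_iff.1 hc0
    exact Finset.sum_pos' (fun _ _ => Complex.normSq_nonneg _)
      ⟨u, Finset.mem_univ u, Complex.normSq_pos.2 hu⟩
  nlinarith [mul_pos hd hpos]

/-- the number of subsets of a set of size q whose size is ≡ r mod M -/
def cnt (M : ℕ) : ℕ → ZMod M → ℕ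
  | 0, r => if r = 0 then 1 else 0
  | q + 1, r => cnt M q r + cnt M q (r - 1)

lemma card_class (M : ℕ) {α : Type*} [DecidableEq α] (s : Finset α) (r : ZMod M) :
    (s.powerset.filter fun S => ((S.card : ℕ) : ZMod M) = r).card = cnt M s.card r := by
  induction s using Finset.induction_on generalizing r with
  | empty =>
    rw [Finset.powerset_empty, Finset.card_empty, cnt, Finset.card_filter,
      Finset.sum_singleton, Finset.card_empty, Nat.cast_zero]
    exact if_congr eq_comm rfl rfl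
  | insert a s ha ih =>
    rw [Finset.card_insert_of_notMem ha, cnt, ← ih r, ← ih (r - 1)]
    simp only [Finset.card_filter]
    rw [Finset.sum_powerset_insert ha]
    congr 1
    refine Finset.sum_congr rfl fun t ht => ?_
    have hat : a ∉ t := fun h => ha (Finset.mem_powerset.1 ht h)
    rw [Finset.card_insert_of_notMem hat]
    push_cast
    refine if_congr ?_ rfl rfl
    constructor
    · intro h
      rw [← h]; ring
    · intro h
      rw [h]; ring

lemma cnt_step (M q : ℕ) (r : ZMod M) :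
    cnt M (q + 2) r = cnt M q r + 2 * cnt M q (r - 1) + cnt M q (r - 2) := by
  have h : r - 1 - 1 = r - 2 := by ring
  rw [cnt, cnt, cnt, h]
  ring

/-- the subsets of size ≡ r mod M -/
def cls (M q : ℕ) (r : ZMod M) : Finset (Finset (Fin q)) :=
  Finset.univ.filter fun S => ((S.card : ℕ) : ZMod M) = r

lemma card_cls (M q : ℕ) (r : ZMod M) : (cls M q r).card = cnt M q r := by
  have := card_class M (Finset.univ : Finset (Fin q)) r
  rw [Finset.card_univ, Fintype.card_fin, Finset.powerset_univ] at this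
  exact this

lemma gen (M : ℕ) [NeZero M] {q : ℕ} (z : Fin q → ℂ) (x : ℂ) (hx : x ^ M = 1) :
    ∏ j, (1 + x * z j) = ∑ r : ZMod M, x ^ r.val * ∑ S ∈ cls M q r, ∏ j ∈ S, z j := by
  rw [Finset.prod_one_add, Finset.powerset_univ]
  have h1 : ∀ S : Finset (Fin q), ∏ j ∈ S, (x * z j) =
      x ^ (((S.card : ℕ) : ZMod M)).val * ∏ j ∈ S, z j := by
    intro S
    rw [Finset.prod_mul_distrib, Finset.prod_const, ZMod.val_natCast]
    congr 1
    conv_lhs => rw [← Nat.div_add_mod S.card M, pow_add, pow_mul, hx, one_pow, one_mul]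
  simp_rw [h1]
  rw [← Finset.sum_fiberwise (s := Finset.univ)
    (g := fun S : Finset (Fin q) => ((S.card : ℕ) : ZMod M))]
  refine Finset.sum_congr rfl fun r _ => ?_
  rw [Finset.mul_sum]
  refine Finset.sum_congr rfl fun S hS => ?_
  rw [(Finset.mem_filter.1 hS).2]

/-- class sums of a difference vector -/
noncomputable def N (M : ℕ) (ζ : ℂ) {q : ℕ} (w : Fin q → ℤ) (r : ZMod M) : ℂ :=
  ∑ S ∈ cls M q r, ∏ j ∈ S, ζ ^ (w j)

lemma N_diag (M : ℕ) (ζ : ℂ) {q : ℕ} (r : ZMod M) :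
    N M ζ (fun _ : Fin q => (0 : ℤ)) r = cnt M q r := by
  simp [N, card_cls]

/-- if some coordinate `w j` makes `1 + x ζ^(w j)` vanish, the generating sum vanishes -/
lemma gen_zero (M : ℕ) [NeZero M] (ζ : ℂ) {q : ℕ} (w : Fin q → ℤ) (x : ℂ) (hx : x ^ M = 1)
    (j : Fin q) (h : 1 + x * ζ ^ (w j) = 0) : ∑ r : ZMod M, x ^ r.val * N M ζ w r = 0 := by
  have := gen M (fun j => ζ ^ (w j)) x hx
  rw [Finset.prod_eq_zero (Finset.mem_univ j) h] at this
  exact this.symm

/-- the characters -/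
noncomputable def chi (ζ : ℂ) {q : ℕ} (S : Finset (Fin q)) (u : Fin q → ℤ) : ℂ :=
  ∏ j ∈ S, ζ ^ (u j)

lemma chi_mul (ζ : ℂ) (hζ0 : ζ ≠ 0) (hζ : (starRingEnd ℂ) ζ = ζ⁻¹) {q : ℕ}
    (S : Finset (Fin q)) (u v : Fin q → ℤ) :
    chi ζ S u * (starRingEnd ℂ) (chi ζ S v) = ∏ j ∈ S, ζ ^ (u j - v j) := by
  rw [chi, chi, map_prod, ← Finset.prod_mul_distrib]
  refine Finset.prod_congr rfl fun j _ => ?_
  rw [map_zpow₀, hζ, zpow_sub₀ hζ0, div_eq_mul_inv, ← inv_zpow]

/-- general bound -/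
lemma bound (M : ℕ) (ζ : ℂ) (hζ0 : ζ ≠ 0) (hζ : (starRingEnd ℂ) ζ = ζ⁻¹) {q : ℕ}
    (F : Finset (Fin q → ℤ)) (r r' : ZMod M)
    (hlt : cnt M q r' < cnt M q r)
    (h : ∀ u ∈ F, ∀ v ∈ F, u ≠ v →
      N M ζ (fun j => u j - v j) r = N M ζ (fun j => u j - v j) r') :
    F.card ≤ cnt M q r := by
  rw [← card_cls, ← Fintype.card_coe F]
  refine inertia (fun S (u : F) => chi ζ S u.1) (cls M q r) (cls M q r')
    ((cnt M q r : ℝ) - cnt M q r') (by
      have : (cnt M q r' : ℝ) < cnt M q r := by exact_mod_cast hlt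
      linarith) ?_
  intro u v
  simp only [chi_mul ζ hζ0 hζ]
  change N M ζ (fun j => u.1 j - v.1 j) r - N M ζ (fun j => u.1 j - v.1 j) r' = _
  by_cases huv : u = v
  · subst huv
    simp only [sub_self, if_true]
    rw [N_diag, N_diag]
    push_cast
    ring
  · rw [if_neg huv, h u.1 u.2 v.1 v.2 (fun e => huv (Subtype.ext e)), sub_self]

lemma zpow_emod (ζ : ℂ) (hζ0 : ζ ≠ 0) (k : ℤ) (hk : ζ ^ k = 1) (w : ℤ) :
    ζ ^ w = ζ ^ (w % k) := by
  conv_lhs => rw [← Int.emod_add_mul_ediv w k]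
  rw [zpow_add₀ hζ0, zpow_mul, hk, one_zpow, mul_one]

lemma encard_le_of {α : Type*} (F : Set α) (B : ℕ)
    (h : ∀ G : Finset α, (G : Set α) ⊆ F → G.card ≤ B) : F.encard ≤ B := by
  by_contra hlt
  push Not at hlt
  have h1 : ((B + 1 : ℕ) : ℕ∞) ≤ F.encard := by
    have := Order.add_one_le_of_lt hlt
    exact_mod_cast this
  obtain ⟨T, hT, hc⟩ := Set.exists_subset_encard_eq h1
  have hfin : T.Finite := Set.finite_of_encard_eq_coe hc
  have h2 := h hfin.toFinset (by simpa using hT)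
  rw [hfin.encard_eq_coe_toFinset_card] at hc
  have h3 : hfin.toFinset.card = B + 1 := by exact_mod_cast hc
  omega

/-- the 0/1 vectors with exactly k ones -/
def layer (q k : ℕ) : Set (Fin q → ℤ) :=
  (fun (A : Finset (Fin q)) (j : Fin q) => if j ∈ A then (1 : ℤ) else 0) ''
    ((Finset.powersetCard k (Finset.univ : Finset (Fin q)) : Finset (Finset (Fin q))) :
      Set (Finset (Fin q)))

lemma layer_card (q k : ℕ) : (layer q k).encard = (q.choose k : ℕ) := by
  rw [layer, Set.InjOn.encard_image, Set.encard_coe_eq_coe_finsetCard,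
    Finset.card_powersetCard, Finset.card_univ, Fintype.card_fin]
  intro A _ B _ h
  ext j
  have := congrFun h j
  by_cases hA : j ∈ A <;> by_cases hB : j ∈ B <;> simp_all

lemma exists_sdiff {q : ℕ} {A B : Finset (Fin q)} (hc : A.card = B.card) (h : A ≠ B) :
    ∃ j, j ∈ A ∧ j ∉ B := by
  by_contra hne
  push Not at hne
  exact h (Finset.eq_of_subset_of_card_le hne hc.symm.le)

lemma layer_pm (q k : ℕ) : ∀ u ∈ layer q k, ∀ v ∈ layer q k, u ≠ v →
    (∃ j, u j - v j = 1) ∧ (∃ j, u j - v j = -1) := by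
  rintro u ⟨A, hA, rfl⟩ v ⟨B, hB, rfl⟩ huv
  have hAB : A ≠ B := fun e => huv (by rw [e])
  rw [Finset.mem_coe, Finset.mem_powersetCard] at hA hB
  obtain ⟨j, hj1, hj2⟩ := exists_sdiff (hA.2.trans hB.2.symm) hAB
  obtain ⟨l, hl1, hl2⟩ := exists_sdiff (hB.2.trans hA.2.symm) hAB.symm
  exact ⟨⟨j, by simp [hj1, hj2]⟩, ⟨l, by simp [hl1, hl2]⟩⟩

lemma layer_zero (q k : ℕ) (hk : 2 * k < q) : ∀ u ∈ layer q k, ∀ v ∈ layer q k,
    ∃ j, u j - v j = 0 := by
  intro u hu v hv
  obtain ⟨A, hA, rfl⟩ := hu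
  obtain ⟨B, hB, rfl⟩ := hv
  rw [Finset.mem_coe, Finset.mem_powersetCard] at hA hB
  have hne : (A ∪ B) ≠ Finset.univ := by
    intro e
    have h3 := Finset.card_union_le A B
    rw [e, Finset.card_univ, Fintype.card_fin, hA.2, hB.2] at h3
    omega
  obtain ⟨j, hj⟩ : ∃ j, j ∉ A ∪ B := by
    by_contra hcon
    push Not at hcon
    exact hne (Finset.eq_univ_iff_forall.2 hcon)
  rw [Finset.mem_union, not_or] at hj
  exact ⟨j, by simp [hj.1, hj.2]⟩

end Pool.Agent.V8H97.Inertia
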